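import Pool.Agent.LacunaryLD.Core

/-!
# Lacunary cosine sums never satisfy the large deviation principle of the independent case
# when the frequencies grow at most exponentially

On `{U ≤ δ / max a_k}` every summand is at least `cos (2πδ)`, and this event has probability at
least `δ K ^ (-n)`, whereas the Cramer rate function of the arcsine law blows up at `1`.
-/

set_option autoImplicit false
open Filter Topology MeasureTheory Real

namespace Pool.Agent.Results.MP_4e696d_pr.NoIndependentRate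

/-- Cumulant generating function `Λ(θ) = log ∫_0^1 exp (θ cos (2πx)) dx`. -/
noncomputable def cumulant (θ : ℝ) : ℝ :=
  Real.log (∫ x in (0 : ℝ)..1, Real.exp (θ * Real.cos (2 * π * x)))

/-- The Cramer rate function `sup_θ (θ x - Λ(θ))` of the independent case. -/
noncomputable def independentRate (x : ℝ) : EReal :=
  ⨆ θ : ℝ, ((θ * x - cumulant θ : ℝ) : EReal)

/-- `S_n / n` as a function of `ω ∈ [0,1]`; the frequencies are `a 0, a 1, …`. -/
noncomputable def average (a : ℕ → ℕ) (n : ℕ) (ω : ℝ) : ℝ :=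
  (∑ k ∈ Finset.range n, Real.cos (2 * π * (a k : ℝ) * ω)) / (n : ℝ)

/-- `n⁻¹ log P(Y_n ∈ A)` under Lebesgue measure on `[0,1]`. -/
noncomputable def logProb (Y : ℕ → ℝ → ℝ) (A : Set ℝ) (n : ℕ) : EReal :=
  (((n : ℝ)⁻¹ : ℝ) : EReal) * ENNReal.log (volume (Set.Icc (0 : ℝ) 1 ∩ {ω : ℝ | Y n ω ∈ A}))

/-- Large deviation principle with speed `n` and rate function `I` for random variables on
`[0,1]` with Lebesgue measure. -/
def SatisfiesLDP (Y : ℕ → ℝ → ℝ) (I : ℝ → EReal) : Prop :=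
  LowerSemicontinuous I ∧ (∀ x, 0 ≤ I x) ∧
    ∀ A : Set ℝ, MeasurableSet A →
      -(⨅ x ∈ interior A, I x) ≤ liminf (logProb Y A) atTop ∧
      limsup (logProb Y A) atTop ≤ -(⨅ x ∈ closure A, I x)

/-- Hadamard gap condition. -/
def IsLacunary (a : ℕ → ℕ) : Prop :=
  (∀ k, 0 < a k) ∧ ∃ q : ℝ, 1 < q ∧ ∀ k, q * (a k : ℝ) ≤ (a (k + 1) : ℝ)

/-- No sequence of positive integers whose ratios converge to a real number (transcendental or
not) satisfies the large deviation principle of the independent case, and lacunary sequences with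
transcendental ratio limit exist; so the answer to the question is negative. -/
theorem result :
    (∀ (a : ℕ → ℕ) (η : ℝ), (∀ k, 0 < a k) →
      Tendsto (fun k : ℕ => (a (k + 1) : ℝ) / (a k : ℝ)) atTop (𝓝 η) →
      ¬ SatisfiesLDP (average a) independentRate) ∧
    (∃ (a : ℕ → ℕ) (η : ℝ), 1 < η ∧ Transcendental ℤ η ∧ IsLacunary a ∧
      Tendsto (fun k : ℕ => (a (k + 1) : ℝ) / (a k : ℝ)) atTop (𝓝 η)) := by
  refine ⟨?_, ?_⟩
  · intro a η ha hη hldp
    obtain ⟨K, hK⟩ := Pool.Agent.LacunaryLD.growth a η ha hη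
    obtain ⟨F, hF, hnot⟩ := Pool.Agent.LacunaryLD.upper_bound_fails a K hK.frequently
    apply hnot
    have h := (hldp.2.2 F hF.measurableSet).2
    rw [hF.closure_eq] at h
    exact h
  · -- a transcendental number greater than `2`
    have hex : ∃ η : ℝ, 2 < η ∧ Transcendental ℤ η := by
      by_contra hcon
      push Not at hcon
      have hcount : {x : ℝ | IsAlgebraic ℤ x}.Countable := Algebraic.countable ℤ ℝ
      have hsub : Set.Ioi (2 : ℝ) ⊆ {x : ℝ | IsAlgebraic ℤ x} := by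
        intro x hx
        by_contra h
        exact hcon x hx h
      have h1 := (hcount.mono hsub).le_aleph0
      rw [Cardinal.mk_Ioi_real] at h1
      exact absurd h1 (not_le.mpr Cardinal.aleph0_lt_continuum)
    obtain ⟨η, hη2, hηt⟩ := hex
    have hη1 : 1 < η := by linarith
    have h0 : 0 < η := by linarith
    refine ⟨fun k => ⌊η ^ (k + 1)⌋₊, η, hη1, hηt, ⟨?_, 2, one_lt_two, ?_⟩, ?_⟩
    · intro k
      have h1 : (1 : ℝ) ≤ η ^ (k + 1) := one_le_pow₀ hη1.le
      exact Nat.floor_pos.mpr h1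
    · intro k
      have hp : 0 < η ^ (k + 1) := by positivity
      have h1 : ((⌊η ^ (k + 1)⌋₊ : ℕ) : ℝ) ≤ η ^ (k + 1) := Nat.floor_le hp.le
      have h2 : (2 * ⌊η ^ (k + 1)⌋₊ : ℕ) ≤ ⌊η ^ (k + 1 + 1)⌋₊ := by
        apply Nat.le_floor
        push_cast
        calc (2 : ℝ) * ((⌊η ^ (k + 1)⌋₊ : ℕ) : ℝ) ≤ η * η ^ (k + 1) := by
              apply mul_le_mul hη2.le h1 (Nat.cast_nonneg _) h0.le
          _ = η ^ (k + 1 + 1) := by ring
      exact_mod_cast h2
    · have hpow : Tendsto (fun k : ℕ => η ^ (k + 1)) atTop atTop :=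
        (tendsto_pow_atTop_atTop_of_one_lt hη1).comp (tendsto_add_atTop_nat 1)
      have hf : Tendsto (fun k : ℕ => ((⌊η ^ (k + 1)⌋₊ : ℕ) : ℝ) / η ^ (k + 1)) atTop (𝓝 1) :=
        (tendsto_nat_floor_div_atTop (R := ℝ)).comp hpow
      have hf1 : Tendsto (fun k : ℕ => ((⌊η ^ (k + 1 + 1)⌋₊ : ℕ) : ℝ) / η ^ (k + 1 + 1))
          atTop (𝓝 1) := hf.comp (tendsto_add_atTop_nat 1)
      have hq : Tendsto (fun k : ℕ => ((((⌊η ^ (k + 1 + 1)⌋₊ : ℕ) : ℝ) / η ^ (k + 1 + 1)) /
          (((⌊η ^ (k + 1)⌋₊ : ℕ) : ℝ) / η ^ (k + 1))) * η) atTop (𝓝 η) := by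
        have := (hf1.div hf one_ne_zero).mul_const η
        simpa using this
      refine hq.congr fun k => ?_
      have hp : η ^ (k + 1) ≠ 0 := by positivity
      beta_reduce
      rw [pow_succ η (k + 1)]
      rcases eq_or_ne (((⌊η ^ (k + 1)⌋₊ : ℕ) : ℝ)) 0 with h | h
      · simp only [h]; simp
      · field_simp

end Pool.Agent.Results.MP_4e696d_pr.NoIndependentRate
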